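import Pool.Agent.EDG.StmtsC

/-! Row CYK of squad EDG: a zero of the cofactor `hsum k N` of exact period `k` is simple. -/

set_option autoImplicit false

namespace Pool.Agent.EDG.H44

open Polynomial Pool.Agent.EDG.C

theorem aff (p q : ℕ → ℂ) (k : ℕ) : ∃ S : ℂ, ∀ u : ℕ → ℂ, (∀ j, u (j + 1) = p j * u j + q j) →
    u k = (∏ j ∈ Finset.range k, p j) * u 0 + S := by
  induction k with
  | zero => exact ⟨0, fun u _ => by simp⟩
  | succ k ih =>
    obtain ⟨S, hS⟩ := ih
    refine ⟨p k * S + q k, fun u hu => ?_⟩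
    rw [hu k, hS u hu, Finset.prod_range_succ]
    ring

/-- periodic solution of a periodic affine recursion -/
theorem aff_per (p q : ℕ → ℂ) (k : ℕ) (hp : ∏ j ∈ Finset.range k, p j ≠ 1)
    (pp : ∀ j, p (j + k) = p j) (pq : ∀ j, q (j + k) = q j) :
    ∃ u : ℕ → ℂ, (∀ j, u (j + 1) = p j * u j + q j) ∧ ∀ j, u (j + k) = u j := by
  obtain ⟨S, hS⟩ := aff p q k
  have h1 : 1 - ∏ j ∈ Finset.range k, p j ≠ 0 := sub_ne_zero.mpr (Ne.symm hp)
  obtain ⟨u, hu0, hu⟩ : ∃ u : ℕ → ℂ, u 0 = S / (1 - ∏ j ∈ Finset.range k, p j) ∧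
      ∀ j, u (j + 1) = p j * u j + q j :=
    ⟨fun j => Nat.rec (S / (1 - ∏ j ∈ Finset.range k, p j)) (fun j v => p j * v + q j) j, rfl,
      fun j => rfl⟩
  refine ⟨u, hu, fun j => ?_⟩
  induction j with
  | zero =>
    rw [zero_add, hS u hu, hu0]
    field_simp
    ring
  | succ j ih =>
    have e : j + 1 + k = (j + k) + 1 := by ring
    rw [e, hu, hu, ih, pp, pq]

theorem sum_zmod (k : ℕ) [NeZero k] (f : ℕ → ℂ) :
    ∑ j : ZMod k, f j.val = ∑ j ∈ Finset.range k, f j := by
  obtain ⟨n, rfl⟩ : ∃ n, k = n + 1 := ⟨k - 1, by have := NeZero.pos k; omega⟩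
  exact Fin.sum_univ_eq_sum_range f (n + 1)

theorem prod_zmod (k : ℕ) [NeZero k] (f : ℕ → ℂ) :
    ∏ j : ZMod k, f j.val = ∏ j ∈ Finset.range k, f j := by
  obtain ⟨n, rfl⟩ : ∃ n, k = n + 1 := ⟨k - 1, by have := NeZero.pos k; omega⟩
  exact Fin.prod_univ_eq_prod_range f (n + 1)

theorem val_succ (k : ℕ) [NeZero k] (j : ZMod k) : (j + 1).val = (j.val + 1) % k := by
  rw [ZMod.val_add, ZMod.val_one_eq_one_mod, Nat.add_mod_mod]

theorem cyk (evi : EviStmt) (qdk : QdkStmt) : CykStmt := by
  intro c0 x0 k N hk hN hper hexact H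
  obtain ⟨evi1, -⟩ := evi
  have : NeZero k := ⟨hk.ne'⟩
  set y : ℕ → ℂ := fun j => (fc c0)^[j] x0 with hy
  have y0 : y 0 = x0 := rfl
  have ysucc : ∀ j, y (j + 1) = y j ^ 2 + c0 := fun j => by
    simp only [hy]
    rw [Function.iterate_succ_apply']
    rfl
  have yadd : ∀ a j, (fc c0)^[a] (y j) = y (a + j) := fun a j => by
    simp only [hy]
    rw [Function.iterate_add_apply]
  have yper : ∀ j, y (j + k) = y j := by
    intro j
    rw [← yadd j k]
    simp only [hy]
    rw [hper]
  -- the polynomial P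
  have hP : ∀ a b : ℂ, ev (C c0 + C a * X) (C x0 + C b * X) (hsum k N) =
      ∑ i ∈ Finset.range N, ∏ l ∈ Finset.range i, ∏ j ∈ Finset.range k,
        ((fc (C c0 + C a * X))^[k * (l + 1) + j] (C x0 + C b * X) +
          (fc (C c0 + C a * X))^[k * l + j] (C x0 + C b * X)) := by
    intro a b
    unfold hsum
    simp only [map_sum, map_prod, map_add, evi1]
  set w : ℂ := ∏ j ∈ Finset.range k, 2 * y j with hw
  -- step 1
  have hev : ∀ (a b : ℂ) (n : ℕ), ((fc (C c0 + C a * X))^[n] (C x0 + C b * X)).eval 0 = y n := by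
    intro a b n
    induction n with
    | zero => simp [y0]
    | succ n ih =>
      rw [Function.iterate_succ_apply', ysucc, ← ih]
      simp [fc]
  have hykl : ∀ l j, y (k * l + j) = y j := by
    intro l j
    induction l with
    | zero => simp
    | succ l ih =>
      have e : k * (l + 1) + j = (k * l + j) + k := by ring
      rw [e, yper, ih]
  have hsum0 : ∑ i ∈ Finset.range N, w ^ i = 0 := by
    have h1 := H 0 0
    have h2 : (ev (C c0 + C 0 * X) (C x0 + C 0 * X) (hsum k N)).eval 0 = 0 := by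
      obtain ⟨R, hR⟩ := h1
      rw [hR]
      simp
    rw [hP] at h2
    simp only [eval_finsetSum, eval_prod, eval_add, hev, hykl] at h2
    rw [← h2]
    refine Finset.sum_congr rfl fun i _ => ?_
    rw [Finset.prod_const, Finset.card_range, hw]
    refine congrArg (· ^ i) (Finset.prod_congr rfl fun j _ => ?_)
    ring
  have hwN : w ^ N = 1 := by
    have h1 := geom_sum_mul w N
    rw [hsum0, zero_mul] at h1
    exact (sub_eq_zero.mp h1.symm)
  have hw1 : w ≠ 1 := by
    intro h1
    rw [h1] at hsum0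
    simp only [one_pow, Finset.sum_const, Finset.card_range, nsmul_eq_mul, mul_one] at hsum0
    exact hN.ne' (by exact_mod_cast hsum0)
  have hw0 : w ≠ 0 := by
    intro h1
    rw [h1, zero_pow hN.ne'] at hwN
    exact zero_ne_one hwN
  have hwn : ‖w‖ = 1 := Complex.norm_eq_one_of_pow_eq_one hwN hN.ne'
  have yne : ∀ j, y j ≠ 0 := by
    have h1 : ∀ j < k, y j ≠ 0 := by
      intro j hj h0
      refine hw0 (Finset.prod_eq_zero (Finset.mem_range.mpr hj) ?_)
      rw [h0, mul_zero]
    intro j
    have h2 := hykl (j / k) (j % k)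
    rw [Nat.div_add_mod] at h2
    rw [h2]
    exact h1 _ (Nat.mod_lt _ hk)
  -- step 2: the periodic derivative
  obtain ⟨z, hz, zper⟩ := aff_per (fun j => 2 * y j) (fun _ => 1) k hw1
    (fun j => by rw [yper]) (fun _ => rfl)
  have hzkl : ∀ l j, z (k * l + j) = z j := by
    intro l j
    induction l with
    | zero => simp
    | succ l ih =>
      have e : k * (l + 1) + j = (k * l + j) + k := by ring
      rw [e, zper, ih]
  set δ := Ideal.Quotient.mk (Ideal.span {(X : ℂ[X]) ^ 2}) with hδ
  have hδX : δ (X ^ 2) = 0 :=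
    Ideal.Quotient.eq_zero_iff_mem.mpr (Ideal.mem_span_singleton_self _)
  have hF : ∀ n, δ ((fc (C c0 + C 1 * X))^[n] (C x0 + C (z 0) * X)) =
      δ (C (y n) + C (z n) * X) := by
    intro n
    induction n with
    | zero => rfl
    | succ n ih =>
      rw [Function.iterate_succ_apply']
      have e1 : δ (fc (C c0 + C 1 * X) ((fc (C c0 + C 1 * X))^[n] (C x0 + C (z 0) * X))) =
          (δ ((fc (C c0 + C 1 * X))^[n] (C x0 + C (z 0) * X))) ^ 2 + δ (C c0 + C 1 * X) := by
        unfold fc
        rw [map_add, map_pow]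
      have e2 : (C (y n) + C (z n) * X) ^ 2 + (C c0 + C 1 * X) =
          (C (y (n + 1)) + C (z (n + 1)) * X : ℂ[X]) + C (z n ^ 2) * X ^ 2 := by
        rw [ysucc, hz]
        simp only [map_add, map_mul, map_pow, map_ofNat, map_one]
        ring
      rw [e1, ih, ← map_pow, ← map_add, e2, map_add, map_mul _ _ (X ^ 2), hδX, mul_zero, add_zero]
  set Wp : ℂ[X] := ∏ j ∈ Finset.range k, (2 * (C (y j) + C (z j) * X)) with hWp
  set Q : ℂ[X] := ∑ i ∈ Finset.range N, Wp ^ i with hQ
  have hQd : X ^ 2 ∣ Q := by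
    have h1 := H 1 (z 0)
    rw [hP] at h1
    have h2 := Ideal.Quotient.eq_zero_iff_mem.mpr (Ideal.mem_span_singleton.mpr h1)
    have h3 : δ Q = 0 := by
      rw [← h2]
      simp only [hQ, hWp, map_sum, map_prod, map_pow, map_mul]
      rw [← hδ]
      refine Finset.sum_congr rfl fun i _ => ?_
      have e4 : ∀ l, ∏ j ∈ Finset.range k,
          δ ((fc (C c0 + C 1 * X))^[k * (l + 1) + j] (C x0 + C (z 0) * X) +
          (fc (C c0 + C 1 * X))^[k * l + j] (C x0 + C (z 0) * X)) =
          ∏ j ∈ Finset.range k, (δ 2 * δ (C (y j) + C (z j) * X)) := by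
        intro l
        refine Finset.prod_congr rfl fun j _ => ?_
        rw [map_add, hF, hF, hykl, hykl, hzkl, hzkl, map_ofNat, two_mul]
      rw [Finset.prod_congr rfl fun l _ => e4 l, Finset.prod_const, Finset.card_range]
    exact Ideal.mem_span_singleton.mp (Ideal.Quotient.eq_zero_iff_mem.mp h3)
  have hQ0 : Q.eval 0 = 0 ∧ (derivative Q).eval 0 = 0 := by
    obtain ⟨R, hR⟩ := hQd
    rw [hR]
    constructor
    · simp
    · simp [derivative_mul]
  have hWe : Wp.eval 0 = w := by
    rw [hWp, eval_prod, hw]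
    refine Finset.prod_congr rfl fun j _ => ?_
    simp
  have hWd : (derivative Wp).eval 0 = w * ∑ j ∈ Finset.range k, z j / y j := by
    rw [hWp, derivative_prod_finset, eval_finsetSum, Finset.mul_sum]
    refine Finset.sum_congr rfl fun j hj => ?_
    rw [eval_mul, eval_prod]
    have e1 : (derivative (2 * (C (y j) + C (z j) * X) : ℂ[X])).eval 0 = 2 * z j := by
      simp [derivative_mul]
    have e2 : w = (∏ i ∈ (Finset.range k).erase j, 2 * y i) * (2 * y j) :=
      (Finset.prod_erase_mul _ _ hj).symm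
    have e3 : ∏ i ∈ (Finset.range k).erase j, (2 * (C (y i) + C (z i) * X) : ℂ[X]).eval 0 =
        ∏ i ∈ (Finset.range k).erase j, 2 * y i := by
      refine Finset.prod_congr rfl fun i _ => ?_
      simp
    rw [e1, e3, e2]
    have := yne j
    field_simp
  have hS0 : ∑ j ∈ Finset.range k, z j / y j = 0 := by
    have h1 : Q * (Wp - 1) = Wp ^ N - 1 := geom_sum_mul Wp N
    have h2 := congrArg (fun R : ℂ[X] => (derivative R).eval 0) h1
    simp only [derivative_mul, derivative_sub, derivative_pow, derivative_one, sub_zero, eval_add,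
      eval_mul, eval_sub, eval_one, eval_pow, eval_natCast, hQ0.1, hQ0.2, hWe, hWd, zero_mul,
      add_zero, map_natCast] at h2
    have h3 : (N : ℂ) ≠ 0 := Nat.cast_ne_zero.mpr hN.ne'
    have h4 := mul_ne_zero (mul_ne_zero h3 (pow_ne_zero (N - 1) hw0)) hw0
    have h5 : (N : ℂ) * w ^ (N - 1) * w * ∑ j ∈ Finset.range k, z j / y j = 0 := by
      rw [mul_assoc _ w, ← h2]
    exact (mul_eq_zero.mp h5).resolve_left h4
  -- step 3: the dual solution
  have hwi : ∏ j ∈ Finset.range k, (2 * y j)⁻¹ ≠ 1 := by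
    rw [Finset.prod_inv_distrib, ← hw]
    intro h1
    exact hw1 (inv_eq_one.mp h1)
  obtain ⟨β, hβ, βper⟩ := aff_per (fun j => (2 * y j)⁻¹) (fun j => -((2 * y j)⁻¹ * (y j)⁻¹)) k hwi
    (fun j => by rw [yper]) (fun j => by rw [yper])
  have hβ' : ∀ j, β j - 2 * y j * β (j + 1) = (y j)⁻¹ := by
    intro j
    rw [hβ]
    have := yne j
    field_simp
    ring
  have hβ0 : ∑ j ∈ Finset.range k, β j = 0 := by
    have h1 : ∀ j, z j / y j = (z j * β j - z (j + 1) * β (j + 1)) + β (j + 1) := by
      intro j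
      rw [div_eq_mul_inv, ← hβ' j, hz j]
      ring
    have h2 : ∑ j ∈ Finset.range k, z j / y j = ∑ j ∈ Finset.range k, β (j + 1) := by
      simp only [h1, Finset.sum_add_distrib]
      have h3 : ∑ j ∈ Finset.range k, (z j * β j - z (j + 1) * β (j + 1)) = 0 := by
        rw [Finset.sum_range_sub' (fun j => z j * β j)]
        have e1 := zper 0
        have e2 := βper 0
        rw [zero_add] at e1 e2
        rw [e1, e2, sub_self]
      rw [h3, zero_add]
    have h4 : ∑ j ∈ Finset.range k, β (j + 1) = ∑ j ∈ Finset.range k, β j := by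
      have h5 := Finset.sum_range_succ β k
      have h6 := Finset.sum_range_succ' β k
      have e2 := βper 0
      rw [zero_add] at e2
      rw [h5, e2] at h6
      exact (add_right_cancel h6).symm
    rw [← h4, ← h2, hS0]
  -- the contradiction
  have yP : Function.Periodic y k := yper
  have βP : Function.Periodic β k := βper
  refine qdk c0 k (fun j => y j.val) (fun j => β j.val) ?_ ?_ ?_ ?_ ?_
  · intro i j hij
    have key : ∀ a b : ℕ, a < b → b < k → y a = y b → False := by
      intro a b hab hbk h1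
      have h2 : y (k - b + a) = y (k - b + b) := by
        rw [← yadd, ← yadd, h1]
      have e : k - b + b = 0 + k := by omega
      rw [e, yper, y0] at h2
      exact hexact (k - b + a) (by omega) (by omega) h2
    have hi := ZMod.val_lt i
    have hj := ZMod.val_lt j
    rcases lt_trichotomy i.val j.val with h | h | h
    · exact (key _ _ h hj hij).elim
    · exact ZMod.val_injective k h
    · exact (key _ _ h hi hij.symm).elim
  · intro j
    simp only [val_succ]
    rw [yP.map_mod_nat, ysucc]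
  · rw [prod_zmod k (fun j => 2 * y j), ← hw, hwn]
  · intro j
    simp only [val_succ]
    rw [βP.map_mod_nat, hβ']
  · rw [sum_zmod k β, hβ0]

end Pool.Agent.EDG.H44
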